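import Pool.Agent.Y141.NE.Pw2

/-! The barriers for the negative parts of the modes (`S_BAR2`). -/

open Set Filter Topology MeasureTheory
open Pool.Agent.Y5.E

set_option autoImplicit false

namespace Pool.Agent.Y141.NE

open Pool.Agent.Y5.D (vf3)

variable {lam N : ℝ} {L C ℓ : ℕ → ℝ} {B : ℕ → ℕ → ℝ} {T : ℝ}
  {x w f : ℕ → ℝ → ℝ} {n : ℕ} {σ a : ℕ → ℝ} {t1 t : ℝ}

/-- a product of the form `K N lam ^ (j+k) exp (β lam)` times `G nb` -/
lemma pk (H : BH lam N L C ℓ B T x w f n σ a t1 t) (τ : ℝ) (j i k : ℕ) (hk : k ≤ 10)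
    {K β : ℝ} (hK0 : 0 ≤ K) (hK : K ≤ 10 ^ 20) (h : β ≤ -(2 / 10000) * i - 1 / 1000) :
    K * N * lam ^ (i + k) * Real.exp (β * lam) * ((L n * a n) * nb lam C x a n j τ)
      ≤ 1 / 10 ^ 12 * ((L n * a n) * nb lam C x a n j τ) := by
  have h1 := tiny1 H.g.q i k hk hK0 hK h
  have hG := Gp H
  have hb := nb_pos H j τ
  have h2 : (1 : ℝ) / 10 ^ 40 ≤ 1 / 10 ^ 12 := by norm_num
  have h3 := h1.trans h2
  gcongr

lemma e2 (α β lam : ℝ) : Real.exp (α * lam) * Real.exp (β * lam) = Real.exp ((α + β) * lam) := by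
  rw [← Real.exp_add]; congr 1; ring

/-- first term of the force -/
lemma f1 (H : BH lam N L C ℓ B T x w f n σ a t1 t) {τ : ℝ} (hτ : τ ∈ Icc (σ n) t)
    (b : B1 lam C x w n a τ) (j : ℕ) :
    N * (L (n + 2 + j) * (At lam x w (n + 2 + j) τ + √(Yt x w (n + 2 + j) τ))
      * √(Wt w (n + 2 + j) τ)) ≤ 1 / 10 ^ 12 * ((L n * a n) * nb lam C x a n j τ) := by
  have hj : (0 : ℝ) ≤ j := Nat.cast_nonneg j
  have hN := H.g.q.N_one
  have hl := H.g.q.lamp
  have hL := H.g.q.Lp n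
  have ha := ap H
  have hd := dlt_pos lam
  have hb := bb_pos H j τ
  have h1 : At lam x w (n + 2 + j) τ ≤ 103 * a n := by
    rw [add_assoc]; exact A_le H hτ (2 + j)
  have h2 := (b.2 j).1.trans (bb_le_a H hτ j)
  have h3 := W_le H hτ b j
  have h4 : At lam x w (n + 2 + j) τ + √(Yt x w (n + 2 + j) τ) ≤ 104 * a n := by linarith
  have h5 := pk H τ j j 2 (by norm_num) (K := 208) (β := -(1 / 2) + (Rm j - Rr j)) (by norm_num)
    (by norm_num) (by unfold Rm Rr; linarith)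
  have hA0 := H.g.A_nonneg (tI H hτ) (n + 2 + j)
  refine le_trans ?_ h5
  rw [L2 H j]
  calc N * (lam ^ (j + 2) * L n * (At lam x w (n + 2 + j) τ + √(Yt x w (n + 2 + j) τ))
        * √(Wt w (n + 2 + j) τ))
      ≤ N * (lam ^ (j + 2) * L n * (104 * a n) * (2 * dlt lam * bb lam C x a n j τ)) := by
        gcongr
    _ = 208 * N * lam ^ (j + 2) * (dlt lam * Real.exp ((Rm j - Rr j) * lam))
          * ((L n * a n) * nb lam C x a n j τ) := by
        rw [bb_nb j j τ]; ring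
    _ = _ := by
        rw [dlt, e2]

/-- second term of the force -/
lemma f2 (H : BH lam N L C ℓ B T x w f n σ a t1 t) {τ : ℝ} (hτ : τ ∈ Icc (σ n) t)
    (b : B1 lam C x w n a τ) (j : ℕ) :
    N * (Uw L w (n + 2 + j) τ * √(Yt x w (n + 2 + j) τ))
      ≤ 1 / 10 ^ 12 * ((L n * a n) * nb lam C x a n j τ) := by
  have hj : (0 : ℝ) ≤ j := Nat.cast_nonneg j
  have hN := H.g.q.N_one
  have hl := H.g.q.lamp
  have hl1 := H.g.q.lam1
  have hL := H.g.q.Lp n
  have ha := ap H
  have hd := dl1_pos lam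
  have hb := bb_pos H j τ
  have hnb := nb_pos H j τ
  have h1 := Uw_le' H hτ b j
  have h2 := (b.2 j).1
  have h5 := pk H τ j j 1 (by norm_num) (K := 3) (β := -(2 / 5) + (Rm j - Rr j)) (by norm_num)
    (by norm_num) (by unfold Rm Rr; linarith)
  have h6 : lam ≤ lam ^ (j + 1) := by
    calc lam = 1 * lam := (one_mul _).symm
      _ ≤ lam ^ j * lam := by
          gcongr
          exact one_le_pow₀ hl1
      _ = _ := (pow_succ _ _).symm
  refine le_trans ?_ h5
  calc N * (Uw L w (n + 2 + j) τ * √(Yt x w (n + 2 + j) τ))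
      ≤ N * ((3 * lam * dl1 lam * (L n * a n)) * bb lam C x a n j τ) := by gcongr
    _ = 3 * N * lam * (dl1 lam * Real.exp ((Rm j - Rr j) * lam))
          * ((L n * a n) * nb lam C x a n j τ) := by
        rw [bb_nb j j τ]; ring
    _ = 3 * N * lam * Real.exp ((-(2 / 5) + (Rm j - Rr j)) * lam)
          * ((L n * a n) * nb lam C x a n j τ) := by rw [dl1, e2]
    _ ≤ _ := by gcongr

/-- third term of the force -/
lemma f3 (H : BH lam N L C ℓ B T x w f n σ a t1 t) {τ : ℝ} (hτ : τ ∈ Icc (σ n) t)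
    (b : B1 lam C x w n a τ) (j : ℕ) :
    N * (L (n + 2 + j) * Aw lam w (n + 2 + j) τ * √(Yt x w (n + 2 + j + 1) τ))
      ≤ 1 / 10 ^ 12 * ((L n * a n) * nb lam C x a n j τ) := by
  have hj : (0 : ℝ) ≤ j := Nat.cast_nonneg j
  have hN := H.g.q.N_one
  have hl := H.g.q.lamp
  have hL := H.g.q.Lp n
  have ha := ap H
  have hd := dl1_pos lam
  have hb := bb_pos H j τ
  have h1 : Aw lam w (n + 2 + j) τ ≤ 10 ^ 5 * dl1 lam * a n := by
    rw [add_assoc]; exact Aw_le H hτ b (2 + j)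
  have h2 := (b.2 (j + 1)).1.trans (bb_succ H j τ)
  rw [← add_assoc] at h2
  have h5 := pk H τ j j 2 (by norm_num) (K := 10 ^ 5) (β := -(2 / 5) + (Rm j - Rr j))
    (by norm_num) (by norm_num) (by unfold Rm Rr; linarith)
  refine le_trans ?_ h5
  rw [L2 H j]
  calc N * (lam ^ (j + 2) * L n * Aw lam w (n + 2 + j) τ * √(Yt x w (n + 2 + j + 1) τ))
      ≤ N * (lam ^ (j + 2) * L n * (10 ^ 5 * dl1 lam * a n) * bb lam C x a n j τ) := by
        gcongr
    _ = 10 ^ 5 * N * lam ^ (j + 2) * (dl1 lam * Real.exp ((Rm j - Rr j) * lam))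
          * ((L n * a n) * nb lam C x a n j τ) := by
        rw [bb_nb j j τ]; ring
    _ = _ := by
        rw [dl1, e2]

/-- fourth term of the force -/
lemma f4 (H : BH lam N L C ℓ B T x w f n σ a t1 t) {τ : ℝ} (hτ : τ ∈ Icc (σ n) t)
    (b : B1 lam C x w n a τ) (j : ℕ) :
    N * loc L x w (n + 2 + j) τ ≤ 1 / 10 ^ 12 * ((L n * a n) * nb lam C x a n j τ) := by
  have hN := H.g.q.N_one
  have hl := H.g.q.lamp
  have hL := H.g.q.Lp n
  have ha := ap H
  have hd := dl1_pos lam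
  have hnb := nb_pos H j τ
  have hτI := tI H hτ
  have hm : ¬ (n + 2 + j = 0) := by omega
  have e1 : n + 2 + j - 1 = n + (j + 1) := by omega
  have e0 : n + 2 + j - 2 = n + j := by omega
  rw [loc, if_neg hm, e1, e0]
  have hw0 := H.g.sy.w0 (n + j) τ hτI
  have hw1 := H.g.sy.w0 (n + (j + 1)) τ hτI
  rcases Nat.lt_or_ge j 2 with hj2 | hj2
  · -- j ≤ 1
    have hjr : (j : ℝ) ≤ 1 := by exact_mod_cast Nat.lt_succ_iff.1 hj2
    have hj : (0 : ℝ) ≤ j := Nat.cast_nonneg j
    obtain ⟨h1, h2⟩ := xw H hτ (j + 1)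
    obtain ⟨h3, h4⟩ := xw H hτ j
    have h5 := w_small H hτ b (j + 1)
    have h6 := w_small H hτ b j
    have h7 := a_le_nb H hτ j
    have h8 := pk H τ j j 1 (by norm_num) (K := 48000)
      (β := -(2 / 5) + (Rm j + 30402 / 1000000)) (by norm_num) (by norm_num)
      (by unfold Rm; linarith)
    refine le_trans ?_ h8
    have h9 : |x (n + (j + 1)) τ| + w (n + (j + 1)) τ + |x (n + j) τ| + w (n + j) τ
        ≤ 120 * a n := by linarith
    have h10 : w (n + (j + 1)) τ + w (n + j) τ ≤ 400 * dl1 lam * a n := by linarith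
    rw [H.g.q.Lk]
    calc N * (lam ^ (j + 1) * L n * ((|x (n + (j + 1)) τ| + w (n + (j + 1)) τ + |x (n + j) τ|
            + w (n + j) τ) * (w (n + (j + 1)) τ + w (n + j) τ)))
        ≤ N * (lam ^ (j + 1) * L n * ((120 * a n) * (400 * dl1 lam * a n))) := by gcongr
      _ = (48000 * N * lam ^ (j + 1) * dl1 lam * (L n * a n)) * a n := by ring
      _ ≤ (48000 * N * lam ^ (j + 1) * dl1 lam * (L n * a n))
            * (nb lam C x a n j τ * Real.exp ((Rm j + 30402 / 1000000) * lam)) := by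
          gcongr
      _ = 48000 * N * lam ^ (j + 1) * (dl1 lam * Real.exp ((Rm j + 30402 / 1000000) * lam))
            * ((L n * a n) * nb lam C x a n j τ) := by ring
      _ = _ := by rw [dl1, e2]
  · -- j ≥ 2
    obtain ⟨i, rfl⟩ : ∃ i, j = i + 2 := ⟨j - 2, by omega⟩
    have hi : (0 : ℝ) ≤ i := Nat.cast_nonneg i
    have hbi := bb_pos H i τ
    have hdl := dlt_pos lam
    have hY := (b.2 i).1
    have e3 : n + (i + 2 + 1) = n + 2 + (i + 1) := by ring
    have e4 : n + (i + 2) = n + 2 + i := by ring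
    rw [e3] at hw1
    rw [e4] at hw0
    rw [e3, e4]
    have h1 : |x (n + 2 + (i + 1)) τ| ≤ bb lam C x a n i τ :=
      (H.g.x_le hτI (by omega)).trans hY
    have h2 : w (n + 2 + (i + 1)) τ ≤ bb lam C x a n i τ :=
      (H.g.w_le hτI (by omega)).trans hY
    have h3 : |x (n + 2 + i) τ| ≤ bb lam C x a n i τ :=
      (H.g.x_le hτI le_rfl).trans hY
    have h4 : w (n + 2 + i) τ ≤ bb lam C x a n i τ :=
      (H.g.w_le hτI le_rfl).trans hY
    have h5 : w (n + 2 + (i + 1)) τ ≤ dlt lam * bb lam C x a n i τ :=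
      (b.2 (i + 1)).2.trans (by have := bb_succ H i τ; gcongr)
    have h6 := (b.2 i).2
    have h7 := bb_le H hτ i
    have h8 := pk H τ (i + 2) i 3 (by norm_num) (K := 8)
      (β := -(1 / 2) + ((-(Rr i) + 102 / 10000) + (Rm (i + 2) - Rr i))) (by norm_num)
      (by norm_num) (by unfold Rm Rr; push_cast; linarith)
    refine le_trans ?_ h8
    have h9 : |x (n + 2 + (i + 1)) τ| + w (n + 2 + (i + 1)) τ + |x (n + 2 + i) τ|
        + w (n + 2 + i) τ ≤ 4 * bb lam C x a n i τ := by linarith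
    have h10 : w (n + 2 + (i + 1)) τ + w (n + 2 + i) τ ≤ 2 * dlt lam * bb lam C x a n i τ := by
      linarith
    rw [L2 H (i + 1), show i + 1 + 2 = i + 3 by ring]
    calc N * (lam ^ (i + 3) * L n * ((|x (n + 2 + (i + 1)) τ| + w (n + 2 + (i + 1)) τ
            + |x (n + 2 + i) τ| + w (n + 2 + i) τ)
            * (w (n + 2 + (i + 1)) τ + w (n + 2 + i) τ)))
        ≤ N * (lam ^ (i + 3) * L n * ((4 * bb lam C x a n i τ)
            * (2 * dlt lam * bb lam C x a n i τ))) := by gcongr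
      _ = (8 * N * lam ^ (i + 3) * L n * dlt lam) * bb lam C x a n i τ
            * bb lam C x a n i τ := by ring
      _ ≤ (8 * N * lam ^ (i + 3) * L n * dlt lam)
            * (a n * Real.exp ((-(Rr i) + 102 / 10000) * lam)) * bb lam C x a n i τ := by
          gcongr
      _ = (8 * N * lam ^ (i + 3) * L n * dlt lam)
            * (a n * Real.exp ((-(Rr i) + 102 / 10000) * lam))
            * (nb lam C x a n (i + 2) τ * Real.exp ((Rm (i + 2) - Rr i) * lam)) := by
          rw [bb_nb i (i + 2) τ]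
      _ = 8 * N * lam ^ (i + 3) * (dlt lam * (Real.exp ((-(Rr i) + 102 / 10000) * lam)
            * Real.exp ((Rm (i + 2) - Rr i) * lam)))
            * ((L n * a n) * nb lam C x a n (i + 2) τ) := by ring
      _ = _ := by rw [dlt, e2, e2]

/-- the force is negligible -/
lemma fb_le (H : BH lam N L C ℓ B T x w f n σ a t1 t) {τ : ℝ} (hτ : τ ∈ Icc (σ n) t)
    (b : B1 lam C x w n a τ) (j : ℕ) :
    |f (n + 2 + j) τ| ≤ 1 / 10 ^ 10 * ((L n * a n) * nb lam C x a n j τ) := by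
  have h0 := H.g.sy.fb (n + 2 + j) τ (tI H hτ)
  have h1 := f1 H hτ b j
  have h2 := f2 H hτ b j
  have h3 := f3 H hτ b j
  have h4 := f4 H hτ b j
  have h5 : 0 < (L n * a n) * nb lam C x a n j τ := mul_pos (Gp H) (nb_pos H j τ)
  linarith

/-- the quadratic terms are negligible -/
lemma qd_le (H : BH lam N L C ℓ B T x w f n σ a t1 t) {τ : ℝ} (hτ : τ ∈ Icc (σ n) t)
    (b : B1 lam C x w n a τ) (j : ℕ) :
    1001 / 1000 * L (n + 2 + j) * Yt x w (n + 2 + j + 1) τ
      ≤ 1 / 10 ^ 12 * ((L n * a n) * nb lam C x a n j τ) := by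
  have hj : (0 : ℝ) ≤ j := Nat.cast_nonneg j
  have hN := H.g.q.N_one
  have hl := H.g.q.lamp
  have hL := H.g.q.Lp n
  have ha := ap H
  have hb := bb_pos H j τ
  have hnb := nb_pos H j τ
  have h2 := (b.2 (j + 1)).1.trans (bb_succ H j τ)
  rw [← add_assoc] at h2
  have h3 : Yt x w (n + 2 + j + 1) τ ≤ bb lam C x a n j τ * bb lam C x a n (j + 1) τ := by
    have h4 := (b.2 (j + 1)).1
    rw [← add_assoc] at h4
    have h5 := Real.mul_self_sqrt (Gd.Y_nonneg x w (n + 2 + j + 1) τ)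
    have h6 := Real.sqrt_nonneg (Yt x w (n + 2 + j + 1) τ)
    calc Yt x w (n + 2 + j + 1) τ = √(Yt x w (n + 2 + j + 1) τ) * √(Yt x w (n + 2 + j + 1) τ) :=
          h5.symm
      _ ≤ _ := by gcongr
  have h7 := bb_le H hτ j
  have h8 := pk H τ j j 2 (by norm_num) (K := 2)
      (β := (-(Rr j) + 102 / 10000) + (Rm j - Rr (j + 1))) (by norm_num)
      (by norm_num) (by unfold Rm Rr; push_cast; linarith)
  refine le_trans ?_ h8
  have hb1 := bb_pos H (j + 1) τ
  have hY0 := Gd.Y_nonneg x w (n + 2 + j + 1) τ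
  have hc : (1001 / 1000 : ℝ) ≤ 2 := by norm_num
  rw [L2 H j]
  calc 1001 / 1000 * (lam ^ (j + 2) * L n) * Yt x w (n + 2 + j + 1) τ
      ≤ 2 * (lam ^ (j + 2) * L n) * (bb lam C x a n j τ * bb lam C x a n (j + 1) τ) := by
        gcongr
    _ ≤ 2 * (lam ^ (j + 2) * L n) * ((a n * Real.exp ((-(Rr j) + 102 / 10000) * lam))
          * bb lam C x a n (j + 1) τ) := by gcongr
    _ = 2 * (lam ^ (j + 2) * L n) * ((a n * Real.exp ((-(Rr j) + 102 / 10000) * lam))
          * (nb lam C x a n j τ * Real.exp ((Rm j - Rr (j + 1)) * lam))) := by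
        rw [bb_nb (j + 1) j τ]
    _ = 2 * 1 * lam ^ (j + 2) * (Real.exp ((-(Rr j) + 102 / 10000) * lam)
          * Real.exp ((Rm j - Rr (j + 1)) * lam)) * ((L n * a n) * nb lam C x a n j τ) := by ring
    _ ≤ 2 * N * lam ^ (j + 2) * (Real.exp ((-(Rr j) + 102 / 10000) * lam)
          * Real.exp ((Rm j - Rr (j + 1)) * lam)) * ((L n * a n) * nb lam C x a n j τ) := by
        have : 0 < L n * a n := by positivity
        gcongr
    _ = _ := by rw [e2]

/-- the backward term is negligible -/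
lemma bk_le (H : BH lam N L C ℓ B T x w f n σ a t1 t) {τ : ℝ} (hτ : τ ∈ Icc (σ n) t)
    (b : B1 lam C x w n a τ) (j : ℕ) :
    C (n + 2 + j) * L (n + 2 + j) * |x (n + 2 + j + 1) τ| ≤ 1 / 10 ^ 10 * (L n * a n) := by
  have h1 := H.g.q.C_small (n + 2 + j)
  have h2 := H.g.q.Cp (n + 2 + j)
  have h3 := (H.g.x_le (tI H hτ) (show n + 2 + j ≤ n + 2 + j + 1 by omega)).trans (b.2 j).1
  have h4 := Lbb H hτ j
  have h5 := H.g.q.Lp (n + 2 + j)
  have h6 := Gp H
  have h7 : (1 / 2 : ℝ) ^ j ≤ 1 := pow_le_one₀ (by norm_num) (by norm_num)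
  have hb := bb_pos H j τ
  calc C (n + 2 + j) * L (n + 2 + j) * |x (n + 2 + j + 1) τ|
      ≤ 1 / 10 ^ 20 * L (n + 2 + j) * bb lam C x a n j τ := by gcongr
    _ = 1 / 10 ^ 20 * (L (n + 2 + j) * bb lam C x a n j τ) := by ring
    _ ≤ 1 / 10 ^ 20 * ((1 / 2) ^ j * (1 / 10 ^ 20 * (L n * a n))) := by gcongr
    _ ≤ 1 / 10 ^ 20 * (1 * (1 / 10 ^ 20 * (L n * a n))) := by gcongr
    _ = (1 / 10 ^ 20 * (1 / 10 ^ 20)) * (L n * a n) := by ring
    _ ≤ _ := by gcongr; norm_num

/-- the barriers for the negative parts of the modes -/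
theorem t_BAR2 : S_BAR2 := by
  intro lam N L C ℓ B T x w f n σ a t1 t H hb τ0 hτ0 j
  have ha := ap H
  have hl := H.g.q.lamp
  have hsub : Icc (σ n) τ0 ⊆ Icc (σ n) t := Icc_subset_Icc_right hτ0.2
  have hsubo : Ioo (σ n) τ0 ⊆ Ioo (σ n) t := Ioo_subset_Ioo_right hτ0.2
  have key := bar (φ := fun τ => -(x (n + 2 + j) τ))
    (φ' := fun τ => -(vf3 L C ℓ B (fun k => x k τ) (n + 2 + j) + f (n + 2 + j) τ))
    (th := th lam C x n) (th' := fun τ => deriv (th lam C x n) τ) (a := σ n) (b := τ0)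
    (K := a n * Real.exp (-(Rm j) * lam)) hτ0.1 (by positivity)
    (((H.g.cont (n + 2 + j)).mono fun τ hτ => tI H (hsub hτ)).neg)
    ((th_cont H).mono hsub)
    (fun τ hτ => (H.g.derivAt (n + 2 + j) (tI0 H (hsubo hτ))).fun_neg)
    (fun τ hτ => by
      obtain ⟨θ, h1, _⟩ := th_deriv H (hsubo hτ)
      rw [h1.deriv]; exact h1)
    (fun τ hτ hlt => by
      have hτ' : τ ∈ Icc (σ n) t := hsub ⟨hτ.1.le, hτ.2.le⟩
      obtain ⟨θ, h1, h2⟩ := th_deriv H (hsubo hτ)
      rw [h1.deriv]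
      have b : B1 lam C x w n a τ := hb τ hτ'
      have hnb := nb_pos H j τ
      have hlt' : nb lam C x a n j τ < -(x (n + 2 + j) τ) := hlt
      have hneg : x (n + 2 + j) τ ≤ 0 := by linarith
      have h3 := H.g.vf_ge_neg (tI H hτ') (n + 2 + j) hneg
      have h4 := bk_le H hτ' b j
      have h5 := U_le' H hτ' b j
      have h6 := qd_le H hτ' b j
      have h7 := fb_le H hτ' b j
      have hG := Gp H
      have hx := xlo H hτ'
      have hr := rt_pos H hτ'
      have hLX : 9 / 10 * (L n * a n) ≤ L n * x n τ * (1 + lam * rt C x n τ) := by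
        have hL := H.g.q.Lp n
        have hLx : L n * (9 / 10 * a n) ≤ L n * x n τ := by gcongr
        have h8 : 0 ≤ lam * rt C x n τ := by positivity
        have h9 : 0 ≤ L n * x n τ := by linarith
        nlinarith [mul_nonneg h9 h8]
      set φ := -(x (n + 2 + j) τ) with hφ
      have habs : |x (n + 2 + j) τ| = φ := abs_of_nonpos hneg
      rw [habs] at h3
      have hφ0 : 0 < φ := hnb.trans hlt'
      have h8 : (L n * a n) * nb lam C x a n j τ ≤ (L n * a n) * φ := by gcongr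
      set Z := L n * x n τ * (1 + lam * rt C x n τ) with hZ
      have h9 : (C (n + 2 + j) * L (n + 2 + j) * |x (n + 2 + j + 1) τ|
          + 1001 / 1000 * Ut L x (n + 2 + j) τ) * φ
          ≤ (1 / 10 ^ 10 * (L n * a n) + 1001 / 1000 * (Z + 1 / 10 ^ 10 * (L n * a n))) * φ := by
        gcongr
      have h10 : φ * (100798 / 100000 * Z) ≤ φ * θ := by gcongr
      have h11 : 9 / 10 * (L n * a n) * φ ≤ Z * φ := by gcongr
      have h12 : 0 < (L n * a n) * φ := mul_pos hG hφ0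
      show -(vf3 L C ℓ B (fun k => x k τ) (n + 2 + j) + f (n + 2 + j) τ) ≤ φ * θ
      linarith)
    (by
      have h1 := H.h.ng (j + 1)
      rw [show n + 1 + (j + 1) = n + 2 + j by ring] at h1
      have hτs : σ n ∈ Icc (σ n) t := ⟨le_rfl, H.ht.1.le⟩
      have h2 := th_lo H hτs
      show -(x (n + 2 + j) (σ n)) ≤ a n * Real.exp (-(Rm j) * lam) * Real.exp (th lam C x n (σ n))
      have h3 : a n * Real.exp (-(Rn (j + 1)) * lam)
          ≤ a n * Real.exp (-(Rm j) * lam) * Real.exp (th lam C x n (σ n)) := by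
        rw [mul_assoc, ← Real.exp_add]
        gcongr
        have h4 : -(Rn (j + 1)) * lam ≤ -(Rm j) * lam + -(30402 / 1000000) * lam := by
          rw [← add_mul]
          gcongr
          unfold Rn Rm
          push_cast
          linarith
        linarith
      linarith)
  have h1 : -(x (n + 2 + j) τ0) ≤ a n * Real.exp (-(Rm j) * lam) * Real.exp (th lam C x n τ0) :=
    key
  unfold nb
  linarith

end Pool.Agent.Y141.NE
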