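import Pool.Agent.Y141.NE.Pw

/-! Bounds of the quantities during one stage, given the barriers of `S_BAR1`. -/

open Set Filter Topology MeasureTheory
open Pool.Agent.Y5.E

set_option autoImplicit false

namespace Pool.Agent.Y141.NE

open Pool.Agent.Y5.D (vf3)

/-- the conclusion of `S_BAR1` at the time `τ` -/
def B1 (lam : ℝ) (C : ℕ → ℝ) (x w : ℕ → ℝ → ℝ) (n : ℕ) (a : ℕ → ℝ) (τ : ℝ) : Prop :=
  w (n + 1) τ ≤ 100 * dl1 lam * a n * rt C x n τ ∧
    ∀ j : ℕ, √(Yt x w (n + 2 + j) τ) ≤ bb lam C x a n j τ ∧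
      w (n + 2 + j) τ ≤ dlt lam * bb lam C x a n j τ

variable {lam N : ℝ} {L C ℓ : ℕ → ℝ} {B : ℕ → ℕ → ℝ} {T : ℝ}
  {x w f : ℕ → ℝ → ℝ} {n : ℕ} {σ a : ℕ → ℝ} {t1 t : ℝ}

lemma bb_pos (H : BH lam N L C ℓ B T x w f n σ a t1 t) (j : ℕ) (τ : ℝ) :
    0 < bb lam C x a n j τ := by
  have := ap H
  unfold bb
  positivity

lemma nb_pos (H : BH lam N L C ℓ B T x w f n σ a t1 t) (j : ℕ) (τ : ℝ) :
    0 < nb lam C x a n j τ := by
  have := ap H
  unfold nb
  positivity

/-- upper bound of the barriers -/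
lemma bb_le (H : BH lam N L C ℓ B T x w f n σ a t1 t) {τ : ℝ} (hτ : τ ∈ Icc (σ n) t) (j : ℕ) :
    bb lam C x a n j τ ≤ a n * Real.exp ((-(Rr j) + 102 / 10000) * lam) := by
  have h1 := th_hi H hτ
  have h2 := ap H
  unfold bb
  rw [mul_assoc, ← Real.exp_add]
  gcongr
  linarith

lemma bb_le_a (H : BH lam N L C ℓ B T x w f n σ a t1 t) {τ : ℝ} (hτ : τ ∈ Icc (σ n) t) (j : ℕ) :
    bb lam C x a n j τ ≤ a n := by
  refine (bb_le H hτ j).trans ?_
  have h2 := ap H
  have h3 := H.g.q.lamp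
  have hj : (0 : ℝ) ≤ j := Nat.cast_nonneg j
  have h4 : Real.exp ((-(Rr j) + 102 / 10000) * lam) ≤ 1 := by
    apply Real.exp_le_one_iff.2
    apply mul_nonpos_of_nonpos_of_nonneg _ h3.le
    unfold Rr
    linarith
  calc a n * Real.exp ((-(Rr j) + 102 / 10000) * lam) ≤ a n * 1 := by gcongr
    _ = a n := mul_one _

/-- `bb` in terms of `nb` -/
lemma bb_nb (i j : ℕ) (τ : ℝ) :
    bb lam C x a n i τ = nb lam C x a n j τ * Real.exp ((Rm j - Rr i) * lam) := by
  unfold bb nb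
  have : Real.exp (-(Rr i) * lam) = Real.exp (-(Rm j) * lam) * Real.exp ((Rm j - Rr i) * lam) := by
    rw [← Real.exp_add]; congr 1; ring
  rw [this]; ring

/-- lower bound of the barriers -/
lemma a_le_nb (H : BH lam N L C ℓ B T x w f n σ a t1 t) {τ : ℝ} (hτ : τ ∈ Icc (σ n) t) (j : ℕ) :
    a n ≤ nb lam C x a n j τ * Real.exp ((Rm j + 30402 / 1000000) * lam) := by
  have h1 := th_lo H hτ
  have h2 := ap H
  unfold nb
  have e : a n * Real.exp (-(Rm j) * lam) * Real.exp (th lam C x n τ)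
      * Real.exp ((Rm j + 30402 / 1000000) * lam)
      = a n * Real.exp (-(Rm j) * lam + th lam C x n τ + (Rm j + 30402 / 1000000) * lam) := by
    rw [Real.exp_add, Real.exp_add]; ring
  rw [e]
  have h3 : 1 ≤ Real.exp (-(Rm j) * lam + th lam C x n τ + (Rm j + 30402 / 1000000) * lam) := by
    apply Real.one_le_exp
    linarith
  nlinarith

/-- decay of the barriers -/
lemma bb_add (H : BH lam N L C ℓ B T x w f n σ a t1 t) (j k : ℕ) (τ : ℝ) :
    bb lam C x a n (j + k) τ ≤ (1 / 2) ^ k * bb lam C x a n j τ := by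
  have h1 := bb_pos H j τ
  have hl := H.g.q.lam_big
  have e : bb lam C x a n (j + k) τ = Real.exp (-(41 / 1000 * lam)) ^ k * bb lam C x a n j τ := by
    unfold bb
    rw [← Real.exp_nat_mul]
    have : Real.exp (-(Rr (j + k)) * lam)
        = Real.exp (k * -(41 / 1000 * lam)) * Real.exp (-(Rr j) * lam) := by
      rw [← Real.exp_add]; congr 1; unfold Rr; push_cast; ring
    rw [this]; ring
  rw [e]
  have h2 : Real.exp (-(41 / 1000 * lam)) ≤ 1 / 2 := by
    have h3 := Real.add_one_le_exp (41 / 1000 * lam)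
    have h4 : Real.exp (-(41 / 1000 * lam)) * Real.exp (41 / 1000 * lam) = 1 := by
      rw [← Real.exp_add]; simp
    have h5 := Real.exp_pos (-(41 / 1000 * lam))
    nlinarith
  gcongr

lemma bb_succ (H : BH lam N L C ℓ B T x w f n σ a t1 t) (j : ℕ) (τ : ℝ) :
    bb lam C x a n (j + 1) τ ≤ bb lam C x a n j τ := by
  have h1 := bb_add H j 1 τ
  have h2 := bb_pos H j τ
  rw [pow_one] at h1
  linarith

lemma L2 (H : BH lam N L C ℓ B T x w f n σ a t1 t) (j : ℕ) :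
    L (n + 2 + j) = lam ^ (j + 2) * L n := by
  rw [show n + 2 + j = n + (j + 2) by ring, H.g.q.Lk]

/-- frequency times barrier -/
lemma Lbb (H : BH lam N L C ℓ B T x w f n σ a t1 t) {τ : ℝ} (hτ : τ ∈ Icc (σ n) t) (j : ℕ) :
    L (n + 2 + j) * bb lam C x a n j τ ≤ (1 / 2) ^ j * (1 / 10 ^ 20 * (L n * a n)) := by
  have h1 := bb_le H hτ j
  have hG := Gp H
  have hL := H.g.q.Lp n
  have hlp := H.g.q.lamp
  have hN := H.g.q.N_one
  have hj : (0 : ℝ) ≤ j := Nat.cast_nonneg j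
  have h2 := tiny H.g.q j 2 (by norm_num) (β := -(Rr j) + 102 / 10000) (by
    unfold Rr; linarith)
  rw [L2 H j]
  have h3 : 2 ^ j * (lam ^ (j + 2) * L n * bb lam C x a n j τ) ≤ 1 / 10 ^ 20 * (L n * a n) := by
    calc 2 ^ j * (lam ^ (j + 2) * L n * bb lam C x a n j τ)
        ≤ 2 ^ j * (lam ^ (j + 2) * L n * (a n * Real.exp ((-(Rr j) + 102 / 10000) * lam))) := by
          gcongr
      _ = 1 * (2 ^ j * lam ^ (j + 2)) * Real.exp ((-(Rr j) + 102 / 10000) * lam)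
            * (L n * a n) := by ring
      _ ≤ (10 ^ 40 * N) * (2 ^ j * lam ^ (j + 2)) * Real.exp ((-(Rr j) + 102 / 10000) * lam)
            * (L n * a n) := by
          gcongr
          linarith
      _ ≤ 1 / 10 ^ 20 * (L n * a n) := by gcongr
  have h4 : (0 : ℝ) < 2 ^ j := by positivity
  have h5 : (1 / 2 : ℝ) ^ j * 2 ^ j = 1 := by rw [← mul_pow]; norm_num
  calc lam ^ (j + 2) * L n * bb lam C x a n j τ
      = (1 / 2) ^ j * (2 ^ j * (lam ^ (j + 2) * L n * bb lam C x a n j τ)) := by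
        rw [← mul_assoc, h5, one_mul]
    _ ≤ _ := by gcongr

/-! ### Bounds of the quantities -/

lemma dlt_le (q : Pm lam N L C ℓ B) : dlt lam ≤ dl1 lam := by
  unfold dlt dl1
  have := q.lamp
  apply Real.exp_le_exp.2
  linarith

lemma xw (H : BH lam N L C ℓ B T x w f n σ a t1 t) {τ : ℝ} (hτ : τ ∈ Icc (σ n) t) (k : ℕ) :
    |x (n + k) τ| ≤ 30 * a n ∧ w (n + k) τ ≤ 30 * a n := by
  have h1 := (ub H hτ).2.1
  exact ⟨(H.g.x_le (tI H hτ) (by omega)).trans h1, (H.g.w_le (tI H hτ) (by omega)).trans h1⟩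

lemma A_le (H : BH lam N L C ℓ B T x w f n σ a t1 t) {τ : ℝ} (hτ : τ ∈ Icc (σ n) t) (k : ℕ) :
    At lam x w (n + k) τ ≤ 103 * a n := by
  induction k with
  | zero => exact (ub H hτ).1.A
  | succ k ih =>
    rw [← add_assoc, Gd.A_succ]
    obtain ⟨h1, h2⟩ := xw H hτ k
    have h3 := H.g.q.sq_lam
    have h4 := H.g.q.sq_lam0
    have h5 := H.g.A_nonneg (tI H hτ) (n + k)
    have h6 := ap H
    have h7 : (√lam)⁻¹ * At lam x w (n + k) τ ≤ 1 / 10 ^ 15 * (103 * a n) := by gcongr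
    linarith

/-- the other modes are small -/
lemma w_small (H : BH lam N L C ℓ B T x w f n σ a t1 t) {τ : ℝ} (hτ : τ ∈ Icc (σ n) t)
    (b : B1 lam C x w n a τ) (k : ℕ) : w (n + k) τ ≤ 200 * dl1 lam * a n := by
  have ha := ap H
  have hd := dl1_pos lam
  rcases k with _ | _ | j
  · exact (ub H hτ).2.2
  · have h1 := b.1
    have h2 := rt_hi' H hτ
    have h3 := rt_pos H hτ
    refine h1.trans ?_
    calc 100 * dl1 lam * a n * rt C x n τ ≤ 100 * dl1 lam * a n * 1 := by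
          gcongr; linarith
      _ ≤ _ := by nlinarith [mul_pos hd ha]
  · have h1 := (b.2 j).2
    have h2 := bb_le_a H hτ j
    have h3 := dlt_le H.g.q
    have h4 := bb_pos H j τ
    rw [show n + (j + 1 + 1) = n + 2 + j by ring]
    calc w (n + 2 + j) τ ≤ dlt lam * bb lam C x a n j τ := h1
      _ ≤ dl1 lam * a n := by gcongr
      _ ≤ _ := by nlinarith [mul_pos hd ha]

lemma Aw_le (H : BH lam N L C ℓ B T x w f n σ a t1 t) {τ : ℝ} (hτ : τ ∈ Icc (σ n) t)
    (b : B1 lam C x w n a τ) (k : ℕ) : Aw lam w (n + k) τ ≤ 10 ^ 5 * dl1 lam * a n := by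
  induction k with
  | zero => exact (ub H hτ).1.Aw
  | succ k ih =>
    rw [← add_assoc, Gd.Aw_succ]
    have h1 := w_small H hτ b k
    have h3 := H.g.q.sq_lam
    have h4 := H.g.q.sq_lam0
    have h5 := H.g.Aw_nonneg (tI H hτ) (n + k)
    have h6 := mul_pos (dl1_pos lam) (ap H)
    have h7 : (√lam)⁻¹ * Aw lam w (n + k) τ ≤ 1 / 10 ^ 15 * (10 ^ 5 * dl1 lam * a n) := by
      gcongr
    nlinarith

lemma Uw_le (H : BH lam N L C ℓ B T x w f n σ a t1 t) {τ : ℝ} (hτ : τ ∈ Icc (σ n) t)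
    (b : B1 lam C x w n a τ) (j : ℕ) :
    Uw L w (n + 2 + j) τ ≤ dl1 lam * (L n * a n) * (2 * lam + (2 - 2 * (1 / 2) ^ j)) := by
  have hl := H.g.q.lamp
  have hlb := H.g.q.lam_big
  have hG := Gp H
  have hd := dl1_pos lam
  have hL := H.g.q.Lp n
  have ha := ap H
  induction j with
  | zero =>
    rw [add_zero, show n + 2 = n + 1 + 1 by ring, Gd.Uw_succ, Gd.Uw_succ]
    have h1 := (ub H hτ).1.Uw
    have h2 := (ub H hτ).2.2
    have h3 := b.1
    have h4 := rt_hi' H hτ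
    have h5 : L n * a n / lam ≤ 1 / 10 ^ 20 * (L n * a n) := by
      rw [div_le_iff₀ hl]
      nlinarith
    have h6 : 10 ^ 5 * dl1 lam * (L n * a n / lam) ≤ 10 ^ 5 * dl1 lam * (1 / 10 ^ 20 * (L n * a n)) := by
      gcongr
    have h7 : L n * w n τ ≤ L n * (200 * dl1 lam * a n) := by gcongr
    have h8 : L (n + 1) * w (n + 1) τ ≤ lam * L n * (100 * dl1 lam * a n * (11 / 1000)) := by
      rw [H.g.q.L_succ]
      gcongr
      refine h3.trans ?_
      gcongr
    have h9 : 0 < dl1 lam * (L n * a n) := by positivity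
    have h10 : 10 ^ 30 * (dl1 lam * (L n * a n)) ≤ lam * (dl1 lam * (L n * a n)) := by gcongr
    rw [pow_zero]
    nlinarith
  | succ j ih =>
    rw [← add_assoc, Gd.Uw_succ]
    have h1 := (b.2 j).2
    have h2 := Lbb H hτ j
    have h3 := dlt_le H.g.q
    have h4 := H.g.q.Lp (n + 2 + j)
    have h5 := bb_pos H j τ
    have h6 : L (n + 2 + j) * w (n + 2 + j) τ ≤ dl1 lam * ((1 / 2) ^ j * (1 * (L n * a n))) := by
      calc L (n + 2 + j) * w (n + 2 + j) τ
          ≤ L (n + 2 + j) * (dl1 lam * bb lam C x a n j τ) := by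
            gcongr
            exact h1.trans (by gcongr)
        _ = dl1 lam * (L (n + 2 + j) * bb lam C x a n j τ) := by ring
        _ ≤ dl1 lam * ((1 / 2) ^ j * (1 / 10 ^ 20 * (L n * a n))) := by gcongr
        _ ≤ _ := by
            gcongr
            norm_num
    rw [pow_succ (1 / 2 : ℝ) j]
    have h7 : dl1 lam * ((1 / 2) ^ j * (1 * (L n * a n)))
        = dl1 lam * (L n * a n) * (1 / 2) ^ j := by ring
    rw [h7] at h6
    nlinarith

lemma Uw_le' (H : BH lam N L C ℓ B T x w f n σ a t1 t) {τ : ℝ} (hτ : τ ∈ Icc (σ n) t)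
    (b : B1 lam C x w n a τ) (j : ℕ) :
    Uw L w (n + 2 + j) τ ≤ 3 * lam * dl1 lam * (L n * a n) := by
  have h1 := Uw_le H hτ b j
  have hlb := H.g.q.lam_big
  have hG := Gp H
  have hd := dl1_pos lam
  have h2 : (0 : ℝ) < (1 / 2) ^ j := by positivity
  calc Uw L w (n + 2 + j) τ ≤ dl1 lam * (L n * a n) * (2 * lam + (2 - 2 * (1 / 2) ^ j)) := h1
    _ ≤ dl1 lam * (L n * a n) * (3 * lam) := by
        gcongr
        linarith
    _ = _ := by ring

/-- the strain of the modes -/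
lemma U_le (H : BH lam N L C ℓ B T x w f n σ a t1 t) {τ : ℝ} (hτ : τ ∈ Icc (σ n) t)
    (b : B1 lam C x w n a τ) (j : ℕ) :
    Ut L x (n + 2 + j) τ ≤ L n * x n τ * (1 + lam * rt C x n τ)
      + (1 / 10 ^ 12 + 1 / 10 ^ 12 * (1 - (1 / 2) ^ j)) * (L n * a n) := by
  have hl := H.g.q.lamp
  have hlb := H.g.q.lam_big
  have hG := Gp H
  have hL := H.g.q.Lp n
  have ha := ap H
  have hx := xp H hτ
  induction j with
  | zero =>
    rw [add_zero, show n + 2 = n + 1 + 1 by ring, Gd.U_succ, Gd.U_succ]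
    have h1 := (ub H hτ).1.U
    have h2 := xhi H hτ
    have h3 := x1_le H hτ
    have hN := H.g.q.N_one
    have h5 : L n * a n / lam ≤ 1 / 10 ^ 20 * (L n * a n) := by
      rw [div_le_iff₀ hl]
      nlinarith
    have h6 : 1012 / 10 * (L n * a n / lam) ≤ 1012 / 10 * (1 / 10 ^ 20 * (L n * a n)) := by
      gcongr
    have h7 : lam * C n ≤ 1 / 10 ^ 20 := by
      have h8 := H.g.q.C_hi n
      have h9 := H.g.q.EE_small 1 (α := -(299 / 10000)) (by norm_num)
      have h10 := lam_le_EE H.g.q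
      have h11 := H.g.q.Cp n
      rw [pow_one] at h9
      calc lam * C n ≤ EE lam * Real.exp (-(299 / 10000) * lam) := by
            gcongr
            exact (EE_pos lam).le
        _ ≤ _ := h9
    have h12 : L (n + 1) * |x (n + 1) τ|
        ≤ L n * x n τ * (lam * rt C x n τ) + 1 / 10 ^ 20 * (30 * (L n * a n)) := by
      rw [H.g.q.L_succ]
      calc lam * L n * |x (n + 1) τ| ≤ lam * L n * ((rt C x n τ + C n) * x n τ) := by gcongr
        _ = L n * x n τ * (lam * rt C x n τ) + (lam * C n) * (L n * x n τ) := by ring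
        _ ≤ L n * x n τ * (lam * rt C x n τ) + 1 / 10 ^ 20 * (L n * (30 * a n)) := by gcongr
        _ = _ := by ring
    rw [abs_of_pos hx, pow_zero]
    nlinarith
  | succ j ih =>
    rw [← add_assoc, Gd.U_succ]
    have h1 := (b.2 j).1
    have h2 := Lbb H hτ j
    have h4 := H.g.q.Lp (n + 2 + j)
    have h6 : L (n + 2 + j) * |x (n + 2 + j) τ| ≤ (1 / 2) ^ j * (1 / 10 ^ 20 * (L n * a n)) := by
      refine le_trans ?_ h2
      gcongr
      exact (H.g.x_le (tI H hτ) le_rfl).trans h1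
    have h7 : (1 / 2 : ℝ) ^ j * (1 / 10 ^ 20 * (L n * a n))
        ≤ (1 / 2 * (1 / 10 ^ 12)) * ((1 / 2) ^ j * (L n * a n)) := by
      have h8 : 0 < (1 / 2 : ℝ) ^ j * (L n * a n) := by positivity
      have h9 : (1 / 2 : ℝ) ^ j * (1 / 10 ^ 20 * (L n * a n))
          = 1 / 10 ^ 20 * ((1 / 2) ^ j * (L n * a n)) := by ring
      rw [h9]
      gcongr
      norm_num
    rw [pow_succ (1 / 2 : ℝ) j]
    linarith

lemma U_le' (H : BH lam N L C ℓ B T x w f n σ a t1 t) {τ : ℝ} (hτ : τ ∈ Icc (σ n) t)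
    (b : B1 lam C x w n a τ) (j : ℕ) :
    Ut L x (n + 2 + j) τ ≤ L n * x n τ * (1 + lam * rt C x n τ) + 1 / 10 ^ 10 * (L n * a n) := by
  have h1 := U_le H hτ b j
  have hG := Gp H
  have h2 : (0 : ℝ) < (1 / 2) ^ j := by positivity
  refine h1.trans ?_
  gcongr
  linarith

/-- the tails of the other modes -/
lemma W_le (H : BH lam N L C ℓ B T x w f n σ a t1 t) {τ : ℝ} (hτ : τ ∈ Icc (σ n) t)
    (b : B1 lam C x w n a τ) (j : ℕ) :
    √(Wt w (n + 2 + j) τ) ≤ 2 * dlt lam * bb lam C x a n j τ := by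
  have hb := bb_pos H j τ
  have hd := dlt_pos lam
  have h1 : ∀ k : ℕ, w (n + 2 + j + k) τ ^ 2
      ≤ (dlt lam * bb lam C x a n j τ) ^ 2 * (1 / 2) ^ k := by
    intro k
    have h2 := (b.2 (j + k)).2
    have h3 := bb_add H j k τ
    have h4 := H.g.sy.w0 (n + 2 + j + k) τ (tI H hτ)
    have h5 : w (n + 2 + j + k) τ ≤ dlt lam * ((1 / 2) ^ k * bb lam C x a n j τ) := by
      rw [add_assoc (n + 2) j k]
      exact h2.trans (by gcongr)
    have h6 : (1 / 2 : ℝ) ^ k ≤ 1 := pow_le_one₀ (by norm_num) (by norm_num)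
    have h7 : (0 : ℝ) < (1 / 2) ^ k := by positivity
    calc w (n + 2 + j + k) τ ^ 2 ≤ (dlt lam * ((1 / 2) ^ k * bb lam C x a n j τ)) ^ 2 := by
          gcongr
      _ = (dlt lam * bb lam C x a n j τ) ^ 2 * ((1 / 2) ^ k * (1 / 2) ^ k) := by ring
      _ ≤ (dlt lam * bb lam C x a n j τ) ^ 2 * (1 * (1 / 2) ^ k) := by gcongr
      _ = _ := by ring
  have hS : Summable fun k : ℕ => (dlt lam * bb lam C x a n j τ) ^ 2 * (1 / 2 : ℝ) ^ k :=
    Gd.geo _
  have h2 : Wt w (n + 2 + j) τ ≤ (dlt lam * bb lam C x a n j τ) ^ 2 * 2 := by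
    unfold Wt
    refine ((H.g.summw (tI H hτ) (n + 2 + j)).tsum_le_tsum h1 hS).trans (le_of_eq ?_)
    rw [tsum_mul_left, tsum_geometric_two]
  apply Real.sqrt_le_iff.2
  refine ⟨by positivity, h2.trans ?_⟩
  nlinarith [sq_nonneg (dlt lam * bb lam C x a n j τ)]

end Pool.Agent.Y141.NE
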